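import Pool.Agent.Helper60.Neg

namespace Pool.Agent.Results.MP_36bb18_co.Obstructions

/-- For all `k` and `M > 0` there is a finite colouring `c` of the natural numbers such that
`c a = c (a ^ (b ^ b))` with `a, b > 1` forces: `M` divides `b * Ω(b)`, `b` has more than `k` prime
factors counted with multiplicity, and `b` is not a prime power. -/
theorem result (k M : ℕ) (hM : 0 < M) : ∃ (m : ℕ) (c : ℕ → Fin m), ∀ a b : ℕ, 1 < a → 1 < b →
    c a = c (a ^ (b ^ b)) →
      M ∣ b * b.primeFactorsList.length ∧ k < b.primeFactorsList.length ∧ ¬ IsPrimePow b :=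
  H60.main k M hM

end Pool.Agent.Results.MP_36bb18_co.Obstructions
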